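import Mathlib

/-!
# Symmetry implies transitivity for the congruence modulo an ultrafilter
-/

set_option autoImplicit false

namespace Pool.Agent.Results.MP_6ac782_lc.SymmetricImpliesTransitive

open Filter Set

/-- `-u = {-A : A ∈ u}` -/
def neg (u : Ultrafilter ℤ) : Ultrafilter ℤ := u.map fun x => -x

/-- `A ∈ u ⊕ v` iff `{x | {y | x + y ∈ A} ∈ v} ∈ u` -/
def oplus (u v : Ultrafilter ℤ) : Ultrafilter ℤ := u.bind fun x => v.map fun y => x + y

theorem mem_oplus (u v : Ultrafilter ℤ) (A : Set ℤ) :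
    A ∈ oplus u v ↔ {x : ℤ | {y : ℤ | x + y ∈ A} ∈ v} ∈ u := Iff.rfl

/-- the divisibility-upward closed sets -/
def UpClosed (A : Set ℤ) : Prop := ∀ a ∈ A, ∀ b : ℤ, a ∣ b → b ∈ A

/-- `u` divides `v` -/
def TDvd (u v : Ultrafilter ℤ) : Prop := ∀ A : Set ℤ, UpClosed A → A ∈ u → A ∈ v

/-- `u ≡_w v` -/
def Cong (w u v : Ultrafilter ℤ) : Prop := TDvd w (oplus u (neg v))

theorem cong_iff {w u v : Ultrafilter ℤ} :
    Cong w u v ↔ ∀ A : Set ℤ, UpClosed A → A ∈ w → {x : ℤ | {y : ℤ | x - y ∈ A} ∈ v} ∈ u := by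
  unfold Cong TDvd
  refine forall_congr' fun A => forall_congr' fun _ => forall_congr' fun _ => ?_
  rw [mem_oplus]
  rfl

/-! ### The easy direction -/

theorem cong_iff_of_selfDiv {w u v : Ultrafilter ℤ} (h : {n : ℤ | {z : ℤ | n ∣ z} ∈ w} ∈ w) :
    Cong w u v ↔ ∀ n : ℤ, {z : ℤ | n ∣ z} ∈ w → {x : ℤ | {y : ℤ | n ∣ x - y} ∈ v} ∈ u := by
  rw [cong_iff]
  constructor
  · intro H n hn
    exact H {z : ℤ | n ∣ z} (fun a ha b hb => Dvd.dvd.trans ha hb) hn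
  · intro H A hA hAw
    obtain ⟨n, hn1, hn2⟩ := Ultrafilter.nonempty_of_mem (Filter.inter_mem hAw h)
    refine Filter.mem_of_superset (H n hn2) fun x hx => ?_
    refine Filter.mem_of_superset hx fun y hy => ?_
    exact hA n hn1 _ hy

theorem transitive_of_selfDiv {w : Ultrafilter ℤ} (h : {n : ℤ | {z : ℤ | n ∣ z} ∈ w} ∈ w) :
    ∀ u v t, Cong w u v → Cong w v t → Cong w u t := by
  intro u v t h1 h2
  rw [cong_iff_of_selfDiv h] at h1 h2 ⊢
  intro n hn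
  obtain ⟨y, hy1⟩ := Ultrafilter.nonempty_of_mem (h2 n hn)
  have hres : ∀ x ∈ {x : ℤ | {y : ℤ | n ∣ x - y} ∈ v}, {y' : ℤ | n ∣ x - y'} ∈ v := fun x hx => hx
  refine Filter.mem_of_superset (h1 n hn) fun x hx => ?_
  obtain ⟨y, hy1, hy2⟩ := Ultrafilter.nonempty_of_mem (Filter.inter_mem hx (h2 n hn))
  refine Filter.mem_of_superset hy2 fun z hz => ?_
  have h3 : n ∣ x - y := hy1
  have h4 : n ∣ y - z := hz
  have h5 := dvd_add h3 h4
  simpa using h5

theorem symmetric_of_selfDiv {w : Ultrafilter ℤ} (h : {n : ℤ | {z : ℤ | n ∣ z} ∈ w} ∈ w) :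
    ∀ u v, Cong w u v → Cong w v u := by
  intro u v h1
  rw [cong_iff_of_selfDiv h] at h1 ⊢
  intro n hn
  obtain ⟨x, hx⟩ := Ultrafilter.nonempty_of_mem (h1 n hn)
  refine Filter.mem_of_superset hx fun y hy => ?_
  refine Filter.mem_of_superset (h1 n hn) fun x' hx' => ?_
  obtain ⟨y', hy1, hy2⟩ := Ultrafilter.nonempty_of_mem (Filter.inter_mem hx hx')
  have e1 : n ∣ x - y := hy
  have e2 : n ∣ x - y' := hy1
  have e3 : n ∣ x' - y' := hy2
  have e4 : y - x' = -(x - y) + (x - y') - (x' - y') := by ring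
  change n ∣ y - x'
  rw [e4]
  exact dvd_sub (dvd_add ((dvd_neg).2 e1) e2) e3

/-! ### Arithmetic -/

/-- a number `p ^ e * h`, `h` a nonresidue, is not congruent to a square modulo `p ^ (e + 1)` -/
theorem nonres {p : ℕ} (hp : p.Prime) {h : ℤ} (hh : ¬ IsSquare (h : ZMod p)) (e : ℕ) :
    ∀ t : ℤ, ¬ (p : ℤ) ^ (e + 1) ∣ (p : ℤ) ^ e * h - t ^ 2 := by
  haveI : Fact p.Prime := ⟨hp⟩
  have hpZ : Prime (p : ℤ) := Nat.prime_iff_prime_int.1 hp
  have hp0 : (p : ℤ) ≠ 0 := by exact_mod_cast hp.ne_zero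
  have hph : ¬ (p : ℤ) ∣ h := by
    intro hd
    apply hh
    rw [(ZMod.intCast_zmod_eq_zero_iff_dvd h p).2 hd]
    exact ⟨0, by simp⟩
  induction e using Nat.strong_induction_on with
  | _ e ih =>
    intro t ht
    match e, ih, ht with
    | 0, _, ht =>
      apply hh
      have h1 : ((h - t ^ 2 : ℤ) : ZMod p) = 0 := by
        rw [ZMod.intCast_zmod_eq_zero_iff_dvd]
        simpa using ht
      refine ⟨(t : ZMod p), ?_⟩
      push_cast at h1
      rw [← sq]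
      exact sub_eq_zero.1 h1
    | 1, _, ht =>
      have h1 : (p : ℤ) ∣ t := by
        have h2 : (p : ℤ) ∣ (p : ℤ) ^ 1 * h - t ^ 2 :=
          Dvd.dvd.trans (dvd_pow_self _ (by norm_num)) ht
        have h3 : (p : ℤ) ∣ t ^ 2 := by
          have := dvd_sub (Dvd.intro (p ^ 0 * h) (by ring) : (p : ℤ) ∣ (p : ℤ) ^ 1 * h) h2
          simpa using this
        exact hpZ.dvd_of_dvd_pow h3
      obtain ⟨s, rfl⟩ := h1
      apply hph
      have h4 : (p : ℤ) * p ∣ p * (h - p * s ^ 2) := by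
        have e1 : (p : ℤ) ^ (1 + 1) = p * p := by ring
        have e2 : (p : ℤ) ^ 1 * h - (p * s) ^ 2 = p * (h - p * s ^ 2) := by ring
        rw [← e1, ← e2]
        exact ht
      have h5 : (p : ℤ) ∣ h - p * s ^ 2 := (mul_dvd_mul_iff_left hp0).1 h4
      have h6 := dvd_add h5 (Dvd.intro (s ^ 2) rfl : (p : ℤ) ∣ p * s ^ 2)
      simpa using h6
    | e + 2, ih, ht =>
      have h1 : (p : ℤ) ∣ t := by
        have h2 : (p : ℤ) ∣ (p : ℤ) ^ (e + 2) * h - t ^ 2 :=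
          Dvd.dvd.trans (dvd_pow_self _ (by omega)) ht
        have h3 : (p : ℤ) ∣ t ^ 2 := by
          have := dvd_sub (Dvd.intro (p ^ (e + 1) * h) (by ring) :
            (p : ℤ) ∣ (p : ℤ) ^ (e + 2) * h) h2
          simpa using this
        exact hpZ.dvd_of_dvd_pow h3
      obtain ⟨s, rfl⟩ := h1
      refine ih e (by omega) s ?_
      have h4 : (p : ℤ) ^ 2 * (p : ℤ) ^ (e + 1) ∣ (p : ℤ) ^ 2 * ((p : ℤ) ^ e * h - s ^ 2) := by
        have e1 : (p : ℤ) ^ 2 * (p : ℤ) ^ (e + 1) = (p : ℤ) ^ (e + 2 + 1) := by ring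
        have e2 : (p : ℤ) ^ 2 * ((p : ℤ) ^ e * h - s ^ 2) =
          (p : ℤ) ^ (e + 2) * h - (p * s) ^ 2 := by ring
        rw [e1, e2]
        exact ht
      exact (mul_dvd_mul_iff_left (pow_ne_zero 2 hp0)).1 h4

/-- one prime -/
theorem one_prime {p : ℕ} (hp : p.Prime) (hp2 : p ≠ 2) (e : ℕ) {n : ℤ} (hn : n ≠ 0)
    (hpn : ¬ (p : ℤ) ^ (e + 1) ∣ n) :
    ∃ x : ℤ, n ∣ x ∧ ∀ t : ℤ, ¬ (p : ℤ) ^ (e + 1) ∣ x - t ^ 2 := by
  haveI : Fact p.Prime := ⟨hp⟩
  have hpZ : Prime (p : ℤ) := Nat.prime_iff_prime_int.1 hp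
  obtain ⟨v, k, hk, hnk⟩ : ∃ (v : ℕ) (k : ℤ), ¬ (p : ℤ) ∣ k ∧ n = (p : ℤ) ^ v * k := by
    have hfin : FiniteMultiplicity (p : ℤ) n := by
      refine Int.finiteMultiplicity_iff.2 ⟨?_, hn⟩
      simpa using hp.ne_one
    exact ⟨_, hfin.exists_eq_pow_mul_and_not_dvd.choose,
      hfin.exists_eq_pow_mul_and_not_dvd.choose_spec.2,
      hfin.exists_eq_pow_mul_and_not_dvd.choose_spec.1⟩
  have hve : v ≤ e := by
    by_contra hcon
    push Not at hcon
    apply hpn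
    rw [hnk]
    exact Dvd.dvd.mul_right (pow_dvd_pow _ (by omega)) k
  obtain ⟨g, hg⟩ : ∃ g : ZMod p, ¬ IsSquare g := by
    refine FiniteField.exists_nonsquare ?_
    rw [ZMod.ringChar_zmod_n]
    exact hp2
  have hk0 : (k : ZMod p) ≠ 0 := by
    intro h0
    exact hk ((ZMod.intCast_zmod_eq_zero_iff_dvd k p).1 h0)
  let a : ℤ := ((g * (k : ZMod p)⁻¹ : ZMod p).val : ℤ)
  have ha : (a : ZMod p) = g * (k : ZMod p)⁻¹ := by
    simp [a]
  refine ⟨(p : ℤ) ^ e * (k * a), ?_, ?_⟩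
  · rw [hnk]
    obtain ⟨d, rfl⟩ := Nat.exists_eq_add_of_le hve
    refine ⟨p ^ d * a, ?_⟩
    ring
  · apply nonres hp
    push_cast
    rw [ha]
    have : (k : ZMod p) * (g * (k : ZMod p)⁻¹) = g := by
      field_simp
    rw [this]
    exact hg

/-- finitely many primes -/
theorem many_primes (e : ℕ → ℕ) (S : Finset ℕ) : (∀ p ∈ S, p.Prime ∧ p ≠ 2) →
    ∀ {n : ℤ}, n ≠ 0 → (∀ p ∈ S, ¬ (p : ℤ) ^ (e p + 1) ∣ n) →
    ∃ x : ℤ, n ∣ x ∧ ∀ p ∈ S, ∀ t : ℤ, ¬ (p : ℤ) ^ (e p + 1) ∣ x - t ^ 2 := by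
  classical
  induction S using Finset.induction_on with
  | empty => exact fun _ n _ _ => ⟨0, dvd_zero n, by simp⟩
  | insert q S hq ih =>
    intro hS n hn hnS
    have hqp : q.Prime := (hS q (Finset.mem_insert_self _ _)).1
    have hq0 : (q : ℤ) ^ (e q + 1) ≠ 0 := pow_ne_zero _ (by exact_mod_cast hqp.ne_zero)
    have hcop : ∀ p ∈ S, IsCoprime ((p : ℤ) ^ (e p + 1)) ((q : ℤ) ^ (e q + 1)) := by
      intro p hp
      refine IsCoprime.pow (Nat.isCoprime_iff_coprime.2 ?_)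
      refine (Nat.coprime_primes (hS p (Finset.mem_insert_of_mem hp)).1 hqp).2 ?_
      rintro rfl
      exact hq hp
    -- the first part
    obtain ⟨x, hx1, hx2⟩ := ih (fun p hp => hS p (Finset.mem_insert_of_mem hp))
      (n := n * (q : ℤ) ^ (e q + 1)) (mul_ne_zero hn hq0) (fun p hp hcon =>
        hnS p (Finset.mem_insert_of_mem hp) ((hcop p hp).dvd_of_dvd_mul_right hcon))
    -- the second part
    let N : ℤ := ∏ p ∈ S, (p : ℤ) ^ (e p + 1)
    have hN0 : N ≠ 0 := Finset.prod_ne_zero_iff.2 fun p hp =>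
      pow_ne_zero _ (by exact_mod_cast (hS p (Finset.mem_insert_of_mem hp)).1.ne_zero)
    have hNq : IsCoprime N ((q : ℤ) ^ (e q + 1)) := IsCoprime.prod_left hcop
    obtain ⟨y, hy1, hy2⟩ := one_prime hqp (hS q (Finset.mem_insert_self _ _)).2 (e q)
      (n := n * N) (mul_ne_zero hn hN0) (fun hcon =>
        hnS q (Finset.mem_insert_self _ _) (hNq.symm.dvd_of_dvd_mul_right hcon))
    refine ⟨x + y, dvd_add (Dvd.dvd.trans (Dvd.intro _ rfl) hx1)
      (Dvd.dvd.trans (Dvd.intro _ rfl) hy1), ?_⟩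
    intro p hp t hcon
    rcases Finset.mem_insert.1 hp with rfl | hp
    · refine hy2 t ?_
      have h1 : (p : ℤ) ^ (e p + 1) ∣ x := Dvd.dvd.trans (Dvd.intro_left _ rfl) hx1
      have h2 := dvd_sub hcon h1
      have h3 : x + y - t ^ 2 - x = y - t ^ 2 := by ring
      rwa [h3] at h2
    · refine hx2 p hp t ?_
      have h1 : (p : ℤ) ^ (e p + 1) ∣ y := by
        refine Dvd.dvd.trans (Finset.dvd_prod_of_mem (fun p : ℕ => (p : ℤ) ^ (e p + 1)) hp) ?_
        exact Dvd.dvd.trans (Dvd.intro_left n rfl) hy1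
      have h2 := dvd_sub hcon h1
      have h3 : x + y - t ^ 2 - y = x - t ^ 2 := by ring
      rwa [h3] at h2

/-- the same with a negative number -/
theorem many_primes_neg (e : ℕ → ℕ) (S : Finset ℕ) (hS : ∀ p ∈ S, p.Prime ∧ p ≠ 2)
    {n : ℤ} (hn : n ≠ 0) (hnS : ∀ p ∈ S, ¬ (p : ℤ) ^ (e p + 1) ∣ n) :
    ∃ x : ℤ, x < 0 ∧ n ∣ x ∧ ∀ p ∈ S, ∀ t : ℤ, ¬ (p : ℤ) ^ (e p + 1) ∣ x - t ^ 2 := by
  classical
  obtain ⟨x, hx1, hx2⟩ := many_primes e S hS hn hnS
  let N : ℤ := ∏ p ∈ S, (p : ℤ) ^ (e p + 1)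
  have hN0 : N ≠ 0 := Finset.prod_ne_zero_iff.2 fun p hp =>
    pow_ne_zero _ (by exact_mod_cast (hS p hp).1.ne_zero)
  let M : ℤ := (n * N) ^ 2
  have hM : 1 ≤ M := by
    have : 0 < M := by positivity
    omega
  refine ⟨x - (|x| + 1) * M, ?_, ?_, ?_⟩
  · have h1 : |x| + 1 ≤ (|x| + 1) * M := le_mul_of_one_le_right (by positivity) hM
    have h2 := le_abs_self x
    linarith
  · refine dvd_sub hx1 (Dvd.dvd.mul_left ?_ _)
    exact ⟨n * N ^ 2, by simp only [M]; ring⟩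
  · intro p hp t hcon
    refine hx2 p hp t ?_
    have h1 : (p : ℤ) ^ (e p + 1) ∣ (|x| + 1) * M := by
      refine Dvd.dvd.mul_left ?_ _
      refine Dvd.dvd.trans (Finset.dvd_prod_of_mem (fun p : ℕ => (p : ℤ) ^ (e p + 1)) hp) ?_
      exact ⟨n ^ 2 * N, by simp only [M]; ring⟩
    have h2 := dvd_add hcon h1
    have h3 : x - (|x| + 1) * M - t ^ 2 + (|x| + 1) * M = x - t ^ 2 := by ring
    rwa [h3] at h2

/-! ### The ultrafilter side -/

/-- `n` divides `w` -/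
def Dv (w : Ultrafilter ℤ) (n : ℕ) : Prop := {z : ℤ | (n : ℤ) ∣ z} ∈ w

theorem dv_of_prime_pow {w : Ultrafilter ℤ} {n : ℕ} (hn : n ≠ 0)
    (h : ∀ p k : ℕ, p.Prime → p ^ k ∣ n → Dv w (p ^ k)) : Dv w n := by
  classical
  have h1 : (⋂ q ∈ {q : ℕ | q ∣ n ∧ ∃ p k : ℕ, p.Prime ∧ q = p ^ k}, {z : ℤ | (q : ℤ) ∣ z}) ∈ w := by
    refine (Filter.biInter_mem ?_).2 ?_
    · exact (Nat.divisors n).finite_toSet.subset fun q hq => by
        simpa using ⟨hq.1, hn⟩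
    · rintro q ⟨hq, p, k, hp, rfl⟩
      exact h p k hp hq
  refine Filter.mem_of_superset h1 fun z hz => ?_
  change (n : ℤ) ∣ z
  rw [Int.natCast_dvd, Nat.dvd_iff_prime_pow_dvd_dvd]
  intro p k hp hpk
  simp only [mem_iInter] at hz
  have := hz (p ^ k) ⟨hpk, p, k, hp, rfl⟩
  exact Int.natCast_dvd.1 this

/-- the sequence of the ends of the blocks -/
def blockSeq (G : ℕ → ℕ) : ℕ → ℕ
  | 0 => 1
  | k + 1 => G (blockSeq G k) + 1

theorem exists_asymmetric {w : Ultrafilter ℤ}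
    (hD : {n : ℤ | {z : ℤ | n ∣ z} ∈ w} ∉ w) : ∃ u v, Cong w u v ∧ ¬ Cong w v u ∧
      Cong w v (pure 0) ∧ Cong w (pure 0) u := by
  classical
  have hns : ∀ n : ℤ, {n} ∉ w := by
    intro n hn
    apply hD
    refine Filter.mem_of_superset hn ?_
    rintro m rfl
    refine Filter.mem_of_superset hn ?_
    rintro z rfl
    exact dvd_refl _
  have hcofin : ∀ S : Set ℤ, S.Finite → Sᶜ ∈ w := by
    intro S hS
    rw [Ultrafilter.compl_mem_iff_notMem]
    intro hSw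
    have := (Ultrafilter.finite_biUnion_mem_iff (f := w) hS (s := fun n => ({n} : Set ℤ))).mp (by
      simpa using hSw)
    obtain ⟨n, _, hn⟩ := this
    exact hns n hn
  -- critical exponents
  let e : ℕ → ℕ := fun p => if h : ∃ k, ¬ Dv w (p ^ k) then Nat.find h - 1 else 0
  have he1 : ∀ p, (∃ k, ¬ Dv w (p ^ k)) → ¬ Dv w (p ^ (e p + 1)) := by
    intro p h
    have h1 : Nat.find h ≠ 0 := by
      intro h0
      have := Nat.find_spec h
      rw [h0] at this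
      apply this
      refine Filter.mem_of_superset Filter.univ_mem fun z _ => ?_
      simp
    have h2 : e p + 1 = Nat.find h := by
      simp only [e, dif_pos h]
      omega
    rw [h2]
    exact Nat.find_spec h
  have he2 : ∀ p k, ¬ Dv w (p ^ k) → p ^ (e p + 1) ∣ p ^ k := by
    intro p k h
    have h' : ∃ k, ¬ Dv w (p ^ k) := ⟨k, h⟩
    have h1 : Nat.find h' ≤ k := Nat.find_min' h' h
    have h3 : k ≠ 0 := by
      rintro rfl
      apply h
      refine Filter.mem_of_superset Filter.univ_mem fun z _ => ?_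
      simp
    refine pow_dvd_pow _ ?_
    simp only [e, dif_pos h']
    omega
  have hgood : ∀ p, (∃ k, ¬ Dv w (p ^ k)) → {n : ℤ | ¬ (p : ℤ) ^ (e p + 1) ∣ n} ∈ w := by
    intro p h
    have h1 := he1 p h
    unfold Dv at h1
    rw [← Ultrafilter.compl_mem_iff_notMem] at h1
    refine Filter.mem_of_superset h1 fun n hn hn' => hn ?_
    change ((p ^ (e p + 1) : ℕ) : ℤ) ∣ n
    rw [Nat.cast_pow]
    exact hn'
  let B1 : Set ℤ := {n : ℤ | n ≠ 0 ∧ ¬ Dv w n.natAbs ∧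
    ((∃ k, ¬ Dv w (2 ^ k)) → ¬ ((2 : ℕ) : ℤ) ^ (e 2 + 1) ∣ n)}
  have hB1 : B1 ∈ w := by
    have h1 : {n : ℤ | ¬ {z : ℤ | n ∣ z} ∈ w} ∈ w := by
      have := Ultrafilter.compl_mem_iff_notMem.2 hD
      exact this
    have h3 : {n : ℤ | (∃ k, ¬ Dv w (2 ^ k)) → ¬ ((2 : ℕ) : ℤ) ^ (e 2 + 1) ∣ n} ∈ w := by
      by_cases h : ∃ k, ¬ Dv w (2 ^ k)
      · exact Filter.mem_of_superset (hgood 2 h) fun n hn _ => hn
      · exact Filter.mem_of_superset Filter.univ_mem fun n _ h' => absurd h' h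
    filter_upwards [h1, hcofin {0} (Set.finite_singleton 0), h3] with n hn1 hn2 hn3
    refine ⟨hn2, fun hcon => hn1 ?_, hn3⟩
    refine Filter.mem_of_superset hcon fun z hz => ?_
    exact (Int.natAbs_dvd).1 hz
  have hP : ∀ n : ℤ, ∃ p : ℕ, n ∈ B1 → p.Prime ∧ p ≠ 2 ∧ (∃ k, ¬ Dv w (p ^ k)) ∧
      (p : ℤ) ^ (e p + 1) ∣ n := by
    intro n
    by_cases hn : n ∈ B1
    · obtain ⟨h0, h1, h2⟩ := hn
      have h3 : ¬ ∀ p k : ℕ, p.Prime → p ^ k ∣ n.natAbs → Dv w (p ^ k) := fun hcon =>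
        h1 (dv_of_prime_pow (Int.natAbs_ne_zero.2 h0) hcon)
      push Not at h3
      obtain ⟨p, k, hp, hpk, hk⟩ := h3
      have h4 : (p : ℤ) ^ (e p + 1) ∣ n := by
        have h5 := (he2 p k hk).trans hpk
        have h6 := Int.natCast_dvd.2 h5
        rwa [Nat.cast_pow] at h6
      refine ⟨p, fun _ => ⟨hp, ?_, ⟨k, hk⟩, h4⟩⟩
      rintro rfl
      exact h2 ⟨k, hk⟩ h4
    · exact ⟨0, fun h => absurd h hn⟩
  choose P hP using hP
  -- the approximations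
  have hX : ∀ (z : ℕ) (n : ℤ), ∃ x : ℤ, n ≠ 0 → x < 0 ∧ n ∣ x ∧ ∀ p : ℕ, p.Prime → p ≠ 2 →
      p < z → ¬ (p : ℤ) ^ (e p + 1) ∣ n → ∀ t : ℤ, ¬ (p : ℤ) ^ (e p + 1) ∣ x - t ^ 2 := by
    intro z n
    by_cases hn : n = 0
    · exact ⟨0, fun h => absurd hn h⟩
    obtain ⟨x, h1, h2, h3⟩ := many_primes_neg e
      ((Finset.range z).filter fun p => p.Prime ∧ p ≠ 2 ∧ ¬ (p : ℤ) ^ (e p + 1) ∣ n)
      (fun p hp => ⟨(Finset.mem_filter.1 hp).2.1, (Finset.mem_filter.1 hp).2.2.1⟩) hn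
      (fun p hp => (Finset.mem_filter.1 hp).2.2.2)
    exact ⟨x, fun _ => ⟨h1, h2, fun p hp hp2 hpz hpn =>
      h3 p (Finset.mem_filter.2 ⟨Finset.mem_range.2 hpz, hp, hp2, hpn⟩)⟩⟩
  choose X hX using hX
  let G : ℕ → ℕ := fun z => (z.factorial) ^ 2 +
    (∑ n ∈ Finset.Icc (-(z : ℤ)) z, (X z n).natAbs) + z + 1
  let N : ℕ → ℕ := blockSeq G
  have hNs : ∀ k, N (k + 1) = G (N k) + 1 := fun k => rfl
  have hNmono : StrictMono N := by
    refine strictMono_nat_of_lt_succ fun k => ?_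
    rw [hNs]
    simp only [G]
    omega
  have hN0 : N 0 = 1 := rfl
  have hNk : ∀ k, k < N k := by
    intro k
    have h1 := hNmono.le_apply (x := k)
    rcases Nat.eq_zero_or_pos k with rfl | hk
    · rw [hN0]
      exact Nat.one_pos
    · induction k with
      | zero => omega
      | succ k ih =>
        rcases Nat.eq_zero_or_pos k with rfl | hk'
        · have := hNmono (show 0 < 0 + 1 by omega)
          rw [hN0] at this
          omega
        · have := ih hNmono.le_apply hk'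
          have h2 := hNmono (show k < k + 1 by omega)
          omega
  have hblock : ∀ p : ℕ, 1 ≤ p → ∃ k : ℕ, N k ≤ p ∧ p < N (k + 1) := by
    intro p hp
    have hex : ∃ k : ℕ, p < N k := ⟨p, hNk p⟩
    have h0 : Nat.find hex ≠ 0 := by
      intro h0
      have := Nat.find_spec hex
      rw [h0, hN0] at this
      omega
    refine ⟨Nat.find hex - 1, ?_, ?_⟩
    · exact not_lt.1 (Nat.find_min hex (by omega))
    · have : Nat.find hex - 1 + 1 = Nat.find hex := by omega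
      rw [this]
      exact Nat.find_spec hex
  let C : ℕ → Set ℤ := fun ε => {r : ℤ | ∃ k, N (2 * k + ε) ≤ P r ∧ P r < N (2 * k + ε + 1)}
  have hC : ∃ ε, ε ≤ 1 ∧ C ε ∈ w := by
    have h1 : C 0 ∪ C 1 ∈ w := by
      refine Filter.mem_of_superset hB1 fun r hr => ?_
      obtain ⟨k, hk1, hk2⟩ := hblock (P r) (hP r hr).1.one_lt.le
      rcases Nat.even_or_odd' k with ⟨j, rfl | rfl⟩
      · exact Or.inl ⟨j, hk1, hk2⟩
      · exact Or.inr ⟨j, hk1, hk2⟩
    rcases Ultrafilter.union_mem_iff.1 h1 with h2 | h2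
    · exact ⟨0, by omega, h2⟩
    · exact ⟨1, by omega, h2⟩
  obtain ⟨ε, hε, hCε⟩ := hC
  let B : Set ℤ := B1 ∩ C ε
  have hB : B ∈ w := Filter.inter_mem hB1 hCε
  let K : ℤ → ℕ := fun n => 2 * n.natAbs + (1 - ε)
  let x : ℤ → ℤ := fun n => X (N (K n)) n
  let y : ℕ → ℤ := fun m => ((m.factorial : ℕ) : ℤ) ^ 2
  have hny : ∀ n ∈ B1, {m : ℕ | n ∣ y m} ∈ (hyperfilter ℕ : Ultrafilter ℕ) := by
    intro n hnB
    have h1 : {m : ℕ | n.natAbs ≤ m} ∈ (hyperfilter ℕ : Ultrafilter ℕ) := by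
      refine mem_hyperfilter_of_finite_compl ?_
      refine (Set.finite_lt_nat n.natAbs).subset fun m hm => ?_
      exact not_le.1 (show ¬ n.natAbs ≤ m from hm)
    refine Filter.mem_of_superset h1 fun m hm => ?_
    have hm' : n.natAbs ≤ m := hm
    refine Dvd.dvd.trans ?_ (dvd_pow_self _ (by norm_num))
    rw [← Int.natAbs_dvd, Int.natCast_dvd_natCast]
    exact Nat.dvd_factorial (Int.natAbs_pos.2 hnB.1) hm'
  refine ⟨w.map x, ((hyperfilter ℕ : Ultrafilter ℕ)).map y, ?_, ?_, ?_, ?_⟩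
  · rw [cong_iff]
    intro A hA hAw
    change {n : ℤ | {m : ℕ | x n - y m ∈ A} ∈ (hyperfilter ℕ : Ultrafilter ℕ)} ∈ w
    filter_upwards [hAw, hB1] with n hnA hnB
    refine Filter.mem_of_superset (hny n hnB) fun m hm => ?_
    exact hA n hnA _ (dvd_sub (hX _ n hnB.1).2.1 hm)
  · intro hcon
    rw [cong_iff] at hcon
    let Bup : Set ℤ := {z | ∃ r ∈ B, r ∣ z}
    have hBup1 : UpClosed Bup := by
      rintro a ⟨r, hr, hra⟩ b hb
      exact ⟨r, hr, hra.trans hb⟩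
    have hBup2 : Bup ∈ w := Filter.mem_of_superset hB fun r hr => ⟨r, hr, dvd_refl r⟩
    have h1 := hcon Bup hBup1 hBup2
    change {m : ℕ | {n : ℤ | y m - x n ∈ Bup} ∈ w} ∈ (hyperfilter ℕ : Ultrafilter ℕ) at h1
    obtain ⟨m, hm⟩ := Ultrafilter.nonempty_of_mem h1
    have hm' : {n : ℤ | y m - x n ∈ Bup} ∈ w := hm
    have h2 : {n : ℤ | m ≤ n.natAbs} ∈ w := by
      refine Filter.mem_of_superset (hcofin (Set.Icc (-(m : ℤ)) m) (Set.finite_Icc _ _)) ?_
      intro n hn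
      by_contra hlt
      apply hn
      have : n.natAbs < m := not_le.1 hlt
      constructor <;> omega
    have h3 : (⋂ p ∈ {p : ℕ | p ≤ m},
        {n : ℤ | (∃ k, ¬ Dv w (p ^ k)) → ¬ (p : ℤ) ^ (e p + 1) ∣ n}) ∈ w := by
      refine (Filter.biInter_mem (Set.finite_le_nat m)).2 fun p _ => ?_
      by_cases h : ∃ k, ¬ Dv w (p ^ k)
      · exact Filter.mem_of_superset (hgood p h) fun n hn _ => hn
      · exact Filter.mem_of_superset Filter.univ_mem fun n _ h' => absurd h' h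
    obtain ⟨n, ⟨⟨hn1, hn2⟩, hn3⟩, hn4⟩ := Ultrafilter.nonempty_of_mem
      (Filter.inter_mem (Filter.inter_mem (Filter.inter_mem hm' h2) h3) hB1)
    have hn2' : m ≤ n.natAbs := hn2
    obtain ⟨r, hrB, hrd⟩ := hn1
    obtain ⟨hp, hp2, hpg, hpr⟩ := hP r hrB.1
    obtain ⟨hx1, hx2, hx3⟩ := hX (N (K n)) n hn4.1
    have hpd : ((P r : ℕ) : ℤ) ^ (e (P r) + 1) ∣ y m - x n := hpr.trans hrd
    have hy0 : 0 ≤ y m := by positivity
    have hx1' : x n < 0 := hx1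
    have hle : ((P r : ℕ) : ℤ) ≤ y m - x n := by
      refine Int.le_of_dvd (by omega) (Dvd.dvd.trans (dvd_pow_self _ (by omega)) hpd)
    have hnN : n.natAbs ≤ N (K n) := by
      have := hNk (K n)
      simp only [K] at this ⊢
      omega
    have hG : y m - x n ≤ (G (N (K n)) : ℤ) := by
      have h4 : m.factorial ≤ (N (K n)).factorial := Nat.factorial_le (hn2'.trans hnN)
      have h5 : (X (N (K n)) n).natAbs ≤
          ∑ j ∈ Finset.Icc (-((N (K n) : ℕ) : ℤ)) ((N (K n) : ℕ) : ℤ), (X (N (K n)) j).natAbs := by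
        refine Finset.single_le_sum (f := fun j => (X (N (K n)) j).natAbs)
          (fun j _ => Nat.zero_le _) ?_
        rw [Finset.mem_Icc]
        constructor <;> omega
      have h6 : (m.factorial) ^ 2 ≤ ((N (K n)).factorial) ^ 2 := Nat.pow_le_pow_left h4 2
      have h7 : y m = ((m.factorial ^ 2 : ℕ) : ℤ) := by simp [y]
      have h8 : x n = X (N (K n)) n := rfl
      have h9 : (G (N (K n)) : ℤ) = (((N (K n)).factorial ^ 2 : ℕ) : ℤ) +
        ((∑ j ∈ Finset.Icc (-((N (K n) : ℕ) : ℤ)) ((N (K n) : ℕ) : ℤ),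
          (X (N (K n)) j).natAbs : ℕ) : ℤ) + ((N (K n) : ℕ) : ℤ) + 1 := by
        simp only [G]
        push_cast
        rfl
      rw [h7, h8, h9]
      omega
    have hlt : P r < N (K n + 1) := by
      rw [hNs]
      omega
    have hpN : P r < N (K n) := by
      by_contra hcon2
      push Not at hcon2
      obtain ⟨k, hk1, hk2⟩ := hrB.2
      have h4 : K n < 2 * k + ε + 1 := hNmono.lt_iff_lt.1 (lt_of_le_of_lt hcon2 hk2)
      have h5 : 2 * k + ε < K n + 1 := hNmono.lt_iff_lt.1 (lt_of_le_of_lt hk1 hlt)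
      simp only [K] at h4 h5
      omega
    by_cases hdn : ((P r : ℕ) : ℤ) ^ (e (P r) + 1) ∣ n
    · have h4 : ((P r : ℕ) : ℤ) ^ (e (P r) + 1) ∣ y m := by
        have h5 : ((P r : ℕ) : ℤ) ^ (e (P r) + 1) ∣ x n := hdn.trans hx2
        have h6 := dvd_add hpd h5
        simpa using h6
      have h5 : P r ≤ m := by
        have h6 : ((P r : ℕ) : ℤ) ∣ ((m.factorial : ℕ) : ℤ) ^ 2 :=
          Dvd.dvd.trans (dvd_pow_self _ (by omega)) h4
        have h7 := (Nat.prime_iff_prime_int.1 hp).dvd_of_dvd_pow h6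
        exact (hp.dvd_factorial).1 (Int.natCast_dvd_natCast.1 h7)
      simp only [mem_iInter] at hn3
      exact hn3 (P r) h5 hpg hdn
    · refine hx3 (P r) hp hp2 hpN hdn (m.factorial : ℤ) ?_
      have h4 : X (N (K n)) n - ((m.factorial : ℕ) : ℤ) ^ 2 = -(y m - x n) := by
        simp only [y, x]
        ring
      rw [h4]
      exact (dvd_neg).2 hpd
  · rw [cong_iff]
    intro A hA hAw
    obtain ⟨n, hn1, hn2⟩ := Ultrafilter.nonempty_of_mem (Filter.inter_mem hAw hB1)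
    change {m : ℕ | {z : ℤ | y m - z ∈ A} ∈ (pure 0 : Ultrafilter ℤ)} ∈
      (hyperfilter ℕ : Ultrafilter ℕ)
    refine Filter.mem_of_superset (hny n hn2) fun m hm => ?_
    refine Ultrafilter.mem_pure.2 ?_
    change y m - 0 ∈ A
    rw [sub_zero]
    exact hA n hn1 _ hm
  · rw [cong_iff]
    intro A hA hAw
    refine Ultrafilter.mem_pure.2 ?_
    change {n : ℤ | 0 - x n ∈ A} ∈ w
    filter_upwards [hAw, hB1] with n hnA hnB
    refine hA n hnA _ ?_
    rw [zero_sub]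
    exact (dvd_neg).2 (hX _ n hnB.1).2.1

/-- **Answer to Q1 (no).** There is no `w ≠ 0` in `βℤ` such that `≡_w` is symmetric but not
transitive. More precisely, for every `w ≠ 0`, symmetry of `≡_w`, transitivity of `≡_w`, and
`{n | nℤ ∈ w} ∈ w` are equivalent. -/
theorem result :
    (¬ ∃ w : Ultrafilter ℤ, w ≠ pure 0 ∧ (∀ u v, Cong w u v → Cong w v u) ∧
      ¬ ∀ u v t, Cong w u v → Cong w v t → Cong w u t) ∧
    ∀ w : Ultrafilter ℤ, w ≠ pure 0 →
      ((∀ u v, Cong w u v → Cong w v u) ↔ ∀ u v t, Cong w u v → Cong w v t → Cong w u t) ∧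
      ((∀ u v, Cong w u v → Cong w v u) ↔ {n : ℤ | {z : ℤ | n ∣ z} ∈ w} ∈ w) := by
  have key : ∀ w : Ultrafilter ℤ, (∀ u v, Cong w u v → Cong w v u) →
      {n : ℤ | {z : ℤ | n ∣ z} ∈ w} ∈ w := by
    intro w hs
    by_contra hD
    obtain ⟨u, v, h1, h2, -⟩ := exists_asymmetric hD
    exact h2 (hs u v h1)
  have key2 : ∀ w : Ultrafilter ℤ, (∀ u v t, Cong w u v → Cong w v t → Cong w u t) →
      {n : ℤ | {z : ℤ | n ∣ z} ∈ w} ∈ w := by
    intro w hs
    by_contra hD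
    obtain ⟨u, v, -, h2, h3, h4⟩ := exists_asymmetric hD
    exact h2 (hs v (pure 0) u h3 h4)
  refine ⟨?_, fun w _ => ⟨⟨fun h => transitive_of_selfDiv (key w h),
    fun h => symmetric_of_selfDiv (key2 w h)⟩, ⟨key w, symmetric_of_selfDiv⟩⟩⟩
  rintro ⟨w, -, h1, h2⟩
  exact h2 (transitive_of_selfDiv (key w h1))

end Pool.Agent.Results.MP_6ac782_lc.SymmetricImpliesTransitive
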